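import Pool.Agent.H44.TT.Def

set_option autoImplicit false

/-!
# [H44 TT Body] The body is convex, compact, semi-algebraic; the vectors are distinct (MP_ce02af_co)
-/

namespace Pool.Agent.H44.TT

open Pool.Agent.H44.TB

variable {n M : ℕ}

private theorem sq_conv {a b u v : ℝ} (ha : 0 ≤ a) (hb : 0 ≤ b) (hab : a + b = 1) :
    (a * u + b * v) ^ 2 ≤ a * u ^ 2 + b * v ^ 2 := by
  have h : a * u ^ 2 + b * v ^ 2 - (a * u + b * v) ^ 2 = a * b * (u - v) ^ 2 := by
    have hb' : b = 1 - a := by linarith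
    rw [hb']; ring
  have h2 : 0 ≤ a * b * (u - v) ^ 2 := by positivity
  linarith

private theorem cs_le {X Y X' Y' T T' : ℝ} (hT : 0 ≤ T) (hT' : 0 ≤ T')
    (h : X ^ 2 + Y ^ 2 ≤ T ^ 2) (h' : X' ^ 2 + Y' ^ 2 ≤ T' ^ 2) : X * X' + Y * Y' ≤ T * T' := by
  apply abs_le_of_sq_le_sq' _ (mul_nonneg hT hT') |>.2
  calc (X * X' + Y * Y') ^ 2 ≤ (X ^ 2 + Y ^ 2) * (X' ^ 2 + Y' ^ 2) := by
        nlinarith [sq_nonneg (X * Y' - Y * X')]
    _ ≤ T ^ 2 * T' ^ 2 := mul_le_mul h h' (by positivity) (by positivity)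
    _ = (T * T') ^ 2 := by ring

theorem body_convex (n : ℕ) : Convex ℝ (body n) := by
  rintro x ⟨x1, x2, x3, x4, x5⟩ y ⟨y1, y2, y3, y4, y5⟩ a b ha hb hab
  have ca0 := ca_pos (n := n)
  have cM0 := cM_pos (n := n)
  have e : ∀ i : Fin 3, (a • x + b • y) i = a * x i + b * y i := fun i => by simp
  have hz := sq_conv (u := x 2) (v := y 2) ha hb hab
  have habs : |a * x 2 + b * y 2| ≤ a * |x 2| + b * |y 2| := by
    refine (abs_add_le _ _).trans ?_
    rw [abs_mul, abs_mul, abs_of_nonneg ha, abs_of_nonneg hb]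
  have hX : 0 ≤ 6 * cl n - 3 * ca n * |x 2| := by linarith
  have hY : 0 ≤ 6 * cl n - 3 * ca n * |y 2| := by linarith
  have hT : a * (6 * cl n - 3 * ca n * |x 2|) + b * (6 * cl n - 3 * ca n * |y 2|) ≤
      6 * cl n - 3 * ca n * |a * x 2 + b * y 2| := by
    have h1 : 3 * ca n * |a * x 2 + b * y 2| ≤ 3 * ca n * (a * |x 2| + b * |y 2|) :=
      mul_le_mul_of_nonneg_left habs (by positivity)
    have h2 : a * (6 * cl n) + b * (6 * cl n) = 6 * cl n := by rw [← add_mul, hab, one_mul]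
    nlinarith
  have hT0 : 0 ≤ a * (6 * cl n - 3 * ca n * |x 2|) + b * (6 * cl n - 3 * ca n * |y 2|) :=
    add_nonneg (mul_nonneg ha hX) (mul_nonneg hb hY)
  refine ⟨?_, ?_, ?_, ?_, ?_⟩
  · rw [e, e]
    nlinarith [mul_le_mul_of_nonneg_left x1 ha, mul_le_mul_of_nonneg_left y1 hb]
  · rw [e, e]
    nlinarith [mul_le_mul_of_nonneg_left x2 ha, mul_le_mul_of_nonneg_left y2 hb]
  · rw [e, e, e]
    have h1 := mul_le_mul_of_nonneg_left x3 ha
    have h2 := mul_le_mul_of_nonneg_left y3 hb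
    have h3 : a * cl n + b * cl n = cl n := by rw [← add_mul, hab, one_mul]
    have h4 : (a * x 2 + b * y 2) ^ 2 / (4 * cM n) ≤
        a * ((x 2) ^ 2 / (4 * cM n)) + b * ((y 2) ^ 2 / (4 * cM n)) := by
      rw [mul_div_assoc', mul_div_assoc', ← add_div]
      exact div_le_div_of_nonneg_right hz (by positivity)
    linarith
  · rw [e]
    linarith
  · rw [e, e, e]
    have h1 := cs_le hX hY x5 y5
    have h2 : (a * x 0 + b * y 0 - 2 * cl n) = a * (x 0 - 2 * cl n) + b * (y 0 - 2 * cl n) := by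
      have : b = 1 - a := by linarith
      rw [this]; ring
    have h3 : (a * x 1 + b * y 1 - 2 * cl n) = a * (x 1 - 2 * cl n) + b * (y 1 - 2 * cl n) := by
      have : b = 1 - a := by linarith
      rw [this]; ring
    rw [h2, h3]
    refine le_trans ?_ (pow_le_pow_left₀ hT0 hT 2)
    have h4 : 0 ≤ a * b := mul_nonneg ha hb
    have h5 := mul_le_mul_of_nonneg_left x5 (sq_nonneg a)
    have h6 := mul_le_mul_of_nonneg_left y5 (sq_nonneg b)
    have h7 := mul_le_mul_of_nonneg_left h1 h4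
    nlinarith

theorem body_compact (n : ℕ) : IsCompact (body n) := by
  have cl0 := cl_pos (n := n)
  have ca0 := ca_pos (n := n)
  have ca1 : 1 ≤ ca n := by unfold ca; linarith [Nat.cast_nonneg (α := ℝ) n]
  apply Metric.isCompact_of_isClosed_isBounded
  · have hS : body n = {x : E3 | (x 2) ^ 2 / 4 ≤ x 0} ∩ ({x : E3 | (x 2) ^ 2 / 4 ≤ x 1} ∩
        ({x : E3 | cl n + (x 2) ^ 2 / (4 * cM n) ≤ x 0 + x 1} ∩
        ({x : E3 | 3 * ca n * |x 2| ≤ 6 * cl n} ∩
        {x : E3 | (x 0 - 2 * cl n) ^ 2 + (x 1 - 2 * cl n) ^ 2 ≤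
          (6 * cl n - 3 * ca n * |x 2|) ^ 2}))) := by
      ext x; exact Iff.rfl
    rw [hS]
    refine IsClosed.inter ?_ (IsClosed.inter ?_ (IsClosed.inter ?_ (IsClosed.inter ?_ ?_)))
    · exact isClosed_le (by fun_prop) (by fun_prop)
    · exact isClosed_le (by fun_prop) (by fun_prop)
    · exact isClosed_le (by fun_prop) (by fun_prop)
    · exact isClosed_le (by fun_prop) (by fun_prop)
    · exact isClosed_le (by fun_prop) (by fun_prop)
  · refine (Metric.isBounded_closedBall (x := (0 : E3)) (r := 20 * cl n)).subset ?_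
    rintro x ⟨_, _, _, x4, x5⟩
    rw [mem_closedBall_zero_iff, EuclideanSpace.norm_eq, Real.sqrt_le_left (by positivity)]
    simp only [Fin.sum_univ_three, Real.norm_eq_abs, sq_abs]
    have hz : |x 2| ≤ 2 * cl n := by
      have h1 : 1 * |x 2| ≤ ca n * |x 2| := mul_le_mul_of_nonneg_right ca1 (abs_nonneg _)
      linarith
    have hz2 : (x 2) ^ 2 ≤ (2 * cl n) ^ 2 := by
      rw [← sq_abs]; exact pow_le_pow_left₀ (abs_nonneg _) hz 2
    have h6 : (6 * cl n - 3 * ca n * |x 2|) ^ 2 ≤ (6 * cl n) ^ 2 := by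
      apply pow_le_pow_left₀ (by linarith)
      have : 0 ≤ 3 * ca n * |x 2| := by positivity
      linarith
    have h7 : (x 0 - 2 * cl n) ^ 2 + (x 1 - 2 * cl n) ^ 2 ≤ (6 * cl n) ^ 2 := x5.trans h6
    have h8 : |x 0 - 2 * cl n| ≤ 6 * cl n := by
      apply abs_le_of_sq_le_sq _ (by positivity)
      nlinarith [sq_nonneg (x 1 - 2 * cl n)]
    have h9 : |x 1 - 2 * cl n| ≤ 6 * cl n := by
      apply abs_le_of_sq_le_sq _ (by positivity)
      nlinarith [sq_nonneg (x 0 - 2 * cl n)]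
    rw [abs_le] at h8 h9
    have h10 : (x 0) ^ 2 ≤ (8 * cl n) ^ 2 := sq_le_sq' (by linarith) (by linarith)
    have h11 : (x 1) ^ 2 ≤ (8 * cl n) ^ 2 := sq_le_sq' (by linarith) (by linarith)
    nlinarith

open MvPolynomial in
private theorem basic7 (a0 a1 a2 b0 b1 b2 c : ℝ) :
    IsBasic 2 {x : E3 | 0 < a0 * (x 0) ^ 2 + a1 * (x 1) ^ 2 + a2 * (x 2) ^ 2 + b0 * x 0 +
      b1 * x 1 + b2 * x 2 + c} := by
  have hq : ∀ (u : ℝ) (i : Fin 3), (C u * X i ^ 2 : MvPolynomial (Fin 3) ℝ).totalDegree ≤ 2 := by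
    intro u i
    refine (totalDegree_mul _ _).trans ?_
    rw [totalDegree_C, totalDegree_X_pow]
  have hl : ∀ (u : ℝ) (i : Fin 3), (C u * X i : MvPolynomial (Fin 3) ℝ).totalDegree ≤ 2 := by
    intro u i
    refine (totalDegree_mul _ _).trans ?_
    rw [totalDegree_C, totalDegree_X]
    norm_num
  have hadd : ∀ p q : MvPolynomial (Fin 3) ℝ, p.totalDegree ≤ 2 → q.totalDegree ≤ 2 →
      (p + q).totalDegree ≤ 2 := fun p q hp hq' => (totalDegree_add p q).trans (max_le hp hq')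
  refine ⟨C a0 * X 0 ^ 2 + C a1 * X 1 ^ 2 + C a2 * X 2 ^ 2 + C b0 * X 0 + C b1 * X 1 +
    C b2 * X 2 + C c, ?_, Or.inr ?_⟩
  · refine hadd _ _ (hadd _ _ (hadd _ _ (hadd _ _ (hadd _ _ (hadd _ _ (hq _ _) (hq _ _))
      (hq _ _)) (hl _ _)) (hl _ _)) (hl _ _)) ?_
    rw [totalDegree_C]
    norm_num
  · simp only [map_add, map_mul, map_pow, eval_X, eval_C]

private theorem complexity_of {s : ℕ} (f : Fin s → E3 → ℝ)
    (hf : ∀ i, IsBasic 2 {x : E3 | 0 < f i x}) {S : Set E3}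
    (hS : ∀ x, x ∈ S ↔ ∀ i, f i x ≤ 0) : HasComplexity s 2 S := by
  refine ⟨fun i => {x : E3 | 0 < f i x}, fun P => ∀ i, ¬ P i, hf, ?_⟩
  ext x
  rw [hS]
  exact forall_congr' fun i => not_lt.symm

private noncomputable def qf (a0 a1 a2 b0 b1 b2 c : ℝ) (x : E3) : ℝ :=
  a0 * (x 0) ^ 2 + a1 * (x 1) ^ 2 + a2 * (x 2) ^ 2 + b0 * x 0 + b1 * x 1 + b2 * x 2 + c

theorem body_complexity (n : ℕ) : HasComplexity 7 2 (body n) := by
  have cl0 := cl_pos (n := n)
  have ca0 := ca_pos (n := n)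
  refine complexity_of ![qf 0 0 (1 / 4) (-1) 0 0 0, qf 0 0 (1 / 4) 0 (-1) 0 0,
    qf 0 0 (1 / (4 * cM n)) (-1) (-1) 0 (cl n),
    qf 0 0 0 0 0 (3 * ca n) (-(6 * cl n)),
    qf 0 0 0 0 0 (-(3 * ca n)) (-(6 * cl n)),
    qf 1 1 (-(3 * ca n) ^ 2) (-(4 * cl n)) (-(4 * cl n)) (36 * cl n * ca n)
      (8 * cl n ^ 2 - 36 * cl n ^ 2),
    qf 1 1 (-(3 * ca n) ^ 2) (-(4 * cl n)) (-(4 * cl n)) (-(36 * cl n * ca n))
      (8 * cl n ^ 2 - 36 * cl n ^ 2)] ?_ ?_
  · intro i
    fin_cases i <;> exact basic7 _ _ _ _ _ _ _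
  · intro x
    have e2 : 1 / (4 * cM n) * (x 2) ^ 2 = (x 2) ^ 2 / (4 * cM n) := by ring
    have e5 : qf 1 1 (-(3 * ca n) ^ 2) (-(4 * cl n)) (-(4 * cl n)) (36 * cl n * ca n)
      (8 * cl n ^ 2 - 36 * cl n ^ 2) x = (x 0 - 2 * cl n) ^ 2 + (x 1 - 2 * cl n) ^ 2 -
        (6 * cl n - 3 * ca n * x 2) ^ 2 := by unfold qf; ring
    have e6 : qf 1 1 (-(3 * ca n) ^ 2) (-(4 * cl n)) (-(4 * cl n)) (-(36 * cl n * ca n))
      (8 * cl n ^ 2 - 36 * cl n ^ 2) x = (x 0 - 2 * cl n) ^ 2 + (x 1 - 2 * cl n) ^ 2 -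
        (6 * cl n + 3 * ca n * x 2) ^ 2 := by unfold qf; ring
    constructor
    · rintro ⟨x1, x2, x3, x4, x5⟩
      have hz := abs_le.mp (show |3 * ca n * x 2| ≤ 6 * cl n by
        rw [abs_mul, abs_of_pos (by positivity : 0 < 3 * ca n)]; exact x4)
      have key : ∀ σ : ℝ, |σ| = |x 2| → (6 * cl n - 3 * ca n * |x 2|) ^ 2 ≤
          (6 * cl n - 3 * ca n * σ) ^ 2 := by
        intro σ hσ
        apply pow_le_pow_left₀ (by linarith)
        have h1 : σ ≤ |x 2| := by rw [← hσ]; exact le_abs_self σ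
        have h2 : 3 * ca n * σ ≤ 3 * ca n * |x 2| := mul_le_mul_of_nonneg_left h1 (by positivity)
        linarith
      have k1 := key (x 2) rfl
      have k2 := key (-x 2) (abs_neg _)
      have f0 : qf 0 0 (1 / 4) (-1) 0 0 0 x ≤ 0 := by unfold qf; linarith
      have f1 : qf 0 0 (1 / 4) 0 (-1) 0 0 x ≤ 0 := by unfold qf; linarith
      have f2 : qf 0 0 (1 / (4 * cM n)) (-1) (-1) 0 (cl n) x ≤ 0 := by
        unfold qf; rw [e2]; linarith
      have f3 : qf 0 0 0 0 0 (3 * ca n) (-(6 * cl n)) x ≤ 0 := by unfold qf; linarith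
      have f4 : qf 0 0 0 0 0 (-(3 * ca n)) (-(6 * cl n)) x ≤ 0 := by unfold qf; linarith
      have f5 : qf 1 1 (-(3 * ca n) ^ 2) (-(4 * cl n)) (-(4 * cl n)) (36 * cl n * ca n)
          (8 * cl n ^ 2 - 36 * cl n ^ 2) x ≤ 0 := by rw [e5]; linarith
      have f6 : qf 1 1 (-(3 * ca n) ^ 2) (-(4 * cl n)) (-(4 * cl n)) (-(36 * cl n * ca n))
          (8 * cl n ^ 2 - 36 * cl n ^ 2) x ≤ 0 := by
        rw [e6]
        have : (6 * cl n + 3 * ca n * x 2) = (6 * cl n - 3 * ca n * -x 2) := by ring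
        rw [this]; linarith
      intro i
      fin_cases i
      exacts [f0, f1, f2, f3, f4, f5, f6]
    · intro h
      have h0 : qf 0 0 (1 / 4) (-1) 0 0 0 x ≤ 0 := h 0
      have h1 : qf 0 0 (1 / 4) 0 (-1) 0 0 x ≤ 0 := h 1
      have h2 : qf 0 0 (1 / (4 * cM n)) (-1) (-1) 0 (cl n) x ≤ 0 := h 2
      have h3 : qf 0 0 0 0 0 (3 * ca n) (-(6 * cl n)) x ≤ 0 := h 3
      have h4 : qf 0 0 0 0 0 (-(3 * ca n)) (-(6 * cl n)) x ≤ 0 := h 4
      have h5 : qf 1 1 (-(3 * ca n) ^ 2) (-(4 * cl n)) (-(4 * cl n)) (36 * cl n * ca n)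
          (8 * cl n ^ 2 - 36 * cl n ^ 2) x ≤ 0 := h 5
      have h6 : qf 1 1 (-(3 * ca n) ^ 2) (-(4 * cl n)) (-(4 * cl n)) (-(36 * cl n * ca n))
          (8 * cl n ^ 2 - 36 * cl n ^ 2) x ≤ 0 := h 6
      rw [e5] at h5
      rw [e6] at h6
      unfold qf at h0 h1 h2 h3 h4
      rw [e2] at h2
      refine ⟨by linarith, by linarith, by linarith, ?_, ?_⟩
      · rcases abs_cases (x 2) with ⟨e, _⟩ | ⟨e, _⟩ <;> rw [e] <;> linarith
      · rcases abs_cases (x 2) with ⟨e, _⟩ | ⟨e, _⟩ <;> rw [e]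
        · linarith
        · have : (6 * cl n - 3 * ca n * -x 2) = (6 * cl n + 3 * ca n * x 2) := by ring
          rw [this]; linarith

private theorem cm_le_one {r : ℝ} (h0 : 0 ≤ r) (h1 : r ≤ 1) : cm r ≤ 1 := by
  unfold cm
  rw [show (1 : ℝ) = Real.sqrt 1 by simp]
  apply Real.sqrt_le_sqrt
  rw [Real.sqrt_one]
  nlinarith [mul_nonneg h0 (sub_nonneg.2 h1)]

private theorem r_inj {r r' L : ℝ} (hr : 0 < r) (hr1 : r < 1) (hr' : 0 < r') (hr1' : r' < 1)
    (hL : 1 ≤ L)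
    (h0 : -r ^ 2 - 6 * L * ((1 - r) / cm r) - 2 * L = -r' ^ 2 - 6 * L * ((1 - r') / cm r') - 2 * L)
    (h1 : -(1 - r) ^ 2 - 6 * L * (r / cm r) - 2 * L =
      -(1 - r') ^ 2 - 6 * L * (r' / cm r') - 2 * L) : r = r' := by
  have m0 := cm_pos r
  have m0' := cm_pos r'
  have m1 := cm_le_one hr.le hr1.le
  have m1' := cm_le_one hr'.le hr1'.le
  set m := cm r with hm
  set m' := cm r' with hm'
  by_contra hne
  set c := (1 - r) / m with hc
  set s := r / m with hs
  set c' := (1 - r') / m' with hc'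
  set s' := r' / m' with hs'
  have k1 : 6 * L * (c' - c) = r ^ 2 - r' ^ 2 := by linarith
  have k2 : 6 * L * (s' - s) = (1 - r) ^ 2 - (1 - r') ^ 2 := by linarith
  have ec : c * m = 1 - r := by rw [hc]; field_simp
  have es : s * m = r := by rw [hs]; field_simp
  have ec' : c' * m' = 1 - r' := by rw [hc']; field_simp
  have es' : s' * m' = r' := by rw [hs']; field_simp
  -- m m' (s (c' - c) - c (s' - s)) = r - r'
  have k3 : m * m' * (s * (c' - c) - c * (s' - s)) = r - r' := by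
    have : m * m' * (s * (c' - c) - c * (s' - s)) = (s * m) * (c' * m') - (c * m) * (s' * m') := by
      ring
    rw [this, ec, es, ec', es']; ring
  have k4 : 6 * L * (r - r') = (r - r') * (m' * ((s * m) * (r + r') + (c * m) * (2 - r - r'))) := by
    rw [← k3]
    have : 6 * L * (m * m' * (s * (c' - c) - c * (s' - s))) =
        m * m' * (s * (6 * L * (c' - c)) - c * (6 * L * (s' - s))) := by ring
    rw [this, k1, k2]
    have e : r - r' = m * m' * (s * (c' - c) - c * (s' - s)) := k3.symm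
    rw [← e]; ring
  rw [ec, es] at k4
  have k5 : 6 * L = m' * (r * (r + r') + (1 - r) * (2 - r - r')) := by
    have h := sub_ne_zero.mpr hne
    apply mul_left_cancel₀ h
    linarith
  have k6 : r * (r + r') + (1 - r) * (2 - r - r') ≤ 4 := by nlinarith
  have k7 : 0 ≤ r * (r + r') + (1 - r) * (2 - r - r') :=
    add_nonneg (by positivity) (mul_nonneg (by linarith) (by linarith))
  have k8 : m' * (r * (r + r') + (1 - r) * (2 - r - r')) ≤
      1 * (r * (r + r') + (1 - r) * (2 - r - r')) := mul_le_mul_of_nonneg_right m1' k7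
  linarith

private theorem cl_big (n : ℕ) : 4 * (n : ℝ) ^ 2 < 2 * cl n ∧ 1 ≤ cl n := by
  have ha : 1 ≤ ca n := by unfold ca; linarith [Nat.cast_nonneg (α := ℝ) n]
  have hn : (n : ℝ) ≤ ca n := by unfold ca; linarith
  have h4 : 1 ≤ ca n ^ 4 := one_le_pow₀ ha
  have hM : 1 ≤ cM n := by unfold cM; linarith
  have hM2 : 1 ≤ cM n ^ 2 := one_le_pow₀ hM
  have ha2 : 1 ≤ ca n ^ 2 := one_le_pow₀ ha
  have h1 : 34 * ca n ^ 2 ≤ cl n := by
    unfold cl
    nlinarith
  have h2 : (n : ℝ) ^ 2 ≤ ca n ^ 2 := pow_le_pow_left₀ (Nat.cast_nonneg n) hn 2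
  constructor <;> nlinarith

theorem tau_injective (_hn : 2 ≤ n) : Function.Injective (tau n M) := by
  have hL := cl_pos (n := n)
  have hM := cM_pos (n := n)
  obtain ⟨hb, hL1⟩ := cl_big n
  have hδ : cδ n < 1 := by
    have ha : 1 ≤ ca n := by unfold ca; linarith [Nat.cast_nonneg (α := ℝ) n]
    unfold cδ
    rw [div_lt_one (by positivity)]
    have : 1 ≤ ca n ^ 2 := one_le_pow₀ ha
    linarith
  have hj : ∀ j : Fin n, 4 * ((j : ℕ) : ℝ) ^ 2 < 2 * cl n := fun j => by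
    have h1 : ((j : ℕ) : ℝ) ≤ n := by exact_mod_cast j.2.le
    have h2 : ((j : ℕ) : ℝ) ^ 2 ≤ (n : ℝ) ^ 2 := pow_le_pow_left₀ (Nat.cast_nonneg _) h1 2
    linarith
  have hr : ∀ l : Fin n, 0 < cr n l := fun l => cr_pos _
  have hr1 : ∀ l : Fin n, cr n l < 1 := fun l => cr_lt_one (n := n) l.2
  have c0 : ∀ l : Fin n, -(cr n l) ^ 2 - 6 * cl n * ((1 - cr n l) / cm (cr n l)) - 2 * cl n <
      -(2 * cl n) := fun l => by
    have h1 : 0 < (cr n l) ^ 2 := pow_pos (hr l) 2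
    have h2 : 0 < 6 * cl n * ((1 - cr n l) / cm (cr n l)) :=
      mul_pos (by positivity) (div_pos (by linarith [hr1 l]) (cm_pos _))
    linarith
  have c1 : ∀ l : Fin n, -(1 - cr n l) ^ 2 - 6 * cl n * (cr n l / cm (cr n l)) - 2 * cl n <
      -(2 * cl n) := fun l => by
    have h1 : 0 < (1 - cr n l) ^ 2 := pow_pos (by linarith [hr1 l]) 2
    have h2 : 0 < 6 * cl n * (cr n l / cm (cr n l)) :=
      mul_pos (by positivity) (div_pos (hr l) (cm_pos _))
    linarith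
  have hw : ∀ m : Fin M, 0 < 2 * cM n * (2 * ((m : ℕ) : ℝ) + 1 - cδ n) := fun m => by
    have h1 : (0 : ℝ) ≤ ((m : ℕ) : ℝ) := Nat.cast_nonneg _
    apply mul_pos (by positivity)
    linarith
  rintro ((j | k) | (l | m)) ((j' | k') | (l' | m')) h
  · have h2 := congrArg (fun x : E3 => x 2) h
    simp only [tau, pt_2] at h2
    have h4 : ((j : ℕ) : ℝ) = ((j' : ℕ) : ℝ) := by linarith
    rw [Fin.ext (Nat.cast_injective h4)]
  · have h2 := congrArg (fun x : E3 => x 0) h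
    simp only [tau, pt_0] at h2
    linarith [hj j]
  · have h2 := congrArg (fun x : E3 => x 1) h
    simp only [tau, pt_1] at h2
    linarith [c1 l']
  · have h2 := congrArg (fun x : E3 => x 1) h
    have h3 := congrArg (fun x : E3 => x 0) h
    simp only [tau, pt_1, pt_0] at h2 h3
    linarith [hj j]
  · have h2 := congrArg (fun x : E3 => x 0) h
    simp only [tau, pt_0] at h2
    linarith [hj j']
  · have h2 := congrArg (fun x : E3 => x 2) h
    simp only [tau, pt_2] at h2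
    have h4 : ((k : ℕ) : ℝ) = ((k' : ℕ) : ℝ) := by linarith
    rw [Fin.ext (Nat.cast_injective h4)]
  · have h2 := congrArg (fun x : E3 => x 0) h
    simp only [tau, pt_0] at h2
    linarith [c0 l']
  · have h2 := congrArg (fun x : E3 => x 1) h
    have h3 := congrArg (fun x : E3 => x 0) h
    simp only [tau, pt_1, pt_0] at h2 h3
    linarith [hj k]
  · have h2 := congrArg (fun x : E3 => x 1) h
    simp only [tau, pt_1] at h2
    linarith [c1 l]
  · have h2 := congrArg (fun x : E3 => x 0) h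
    simp only [tau, pt_0] at h2
    linarith [c0 l]
  · have h0 := congrArg (fun x : E3 => x 0) h
    have h1 := congrArg (fun x : E3 => x 1) h
    simp only [tau, pt_0, pt_1] at h0 h1
    have h3 := r_inj (hr l) (hr1 l) (hr l') (hr1 l') hL1 h0 h1
    unfold cr at h3
    have h4 := (div_left_inj' (ca_pos (n := n)).ne').mp h3
    have h5 : ((l : ℕ) : ℝ) = ((l' : ℕ) : ℝ) := by linarith
    rw [Fin.ext (Nat.cast_injective h5)]
  · have h2 := congrArg (fun x : E3 => x 2) h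
    simp only [tau, pt_2] at h2
    linarith [hw m']
  · have h2 := congrArg (fun x : E3 => x 1) h
    have h3 := congrArg (fun x : E3 => x 0) h
    simp only [tau, pt_1, pt_0] at h2 h3
    linarith [hj j']
  · have h2 := congrArg (fun x : E3 => x 1) h
    have h3 := congrArg (fun x : E3 => x 0) h
    simp only [tau, pt_1, pt_0] at h2 h3
    linarith [hj k']
  · have h2 := congrArg (fun x : E3 => x 2) h
    simp only [tau, pt_2] at h2
    linarith [hw m]
  · have h2 := congrArg (fun x : E3 => x 2) h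
    simp only [tau, pt_2, neg_inj] at h2
    have h3 := mul_left_cancel₀ (by positivity : (2 * cM n) ≠ 0) h2
    have h4 : ((m : ℕ) : ℝ) = ((m' : ℕ) : ℝ) := by linarith
    rw [Fin.ext (Nat.cast_injective h4)]

end Pool.Agent.H44.TT
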