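import Pool.Agent.H44.TT.Smp

set_option autoImplicit false

/-!
# [H44 TT Clo] The clopen pieces and the number of components (MP_ce02af_co, translates)

Adapted from `CubicLowerBound` (helper34).
-/

namespace Pool.Agent.H44.TT

open Pool.Agent.H44.TB (E3 Line3 transversalSpace dirSet isOpen_dirSet exists_direction
  direction_smul card_le_components Idx cr cδ)

variable {n M : ℕ}

theorem coneCl_smul {c : ℕ × ℕ × ℕ} {v : E3} {u : ℝ} (hu : 0 < u) (h : u • v ∈ coneCl n c) :
    v ∈ coneCl n c := by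
  rw [mem_coneCl] at *
  simp only [PiLp.smul_apply, smul_eq_mul] at h
  obtain ⟨h1, h2, h3, h4, h5⟩ := h
  have e1 : ∀ x y : ℝ, x * (u * y) = u * (x * y) := fun x y => by ring
  rw [e1] at h2 h3 h4 h5
  rw [← mul_add] at h5
  exact ⟨nonneg_of_mul_nonneg_right h1 hu, le_of_mul_le_mul_left h2 hu,
    le_of_mul_le_mul_left h3 hu, le_of_mul_le_mul_left h4 hu, le_of_mul_le_mul_left h5 hu⟩

theorem isClosed_coneCl (c : ℕ × ℕ × ℕ) : IsClosed (coneCl n c) := by
  have h : coneCl n c = {v : E3 | 0 ≤ v 2} ∩ ({v : E3 | (2 * c.1 + cr n c.2.2) * v 2 ≤ v 0} ∩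
      ({v : E3 | v 0 ≤ (2 * c.1 + cr n (c.2.2 + 1)) * v 2} ∩ ({v : E3 | 2 * c.2.1 * v 2 ≤ v 1} ∩
      {v : E3 | v 0 + v 1 ≤ (2 * (c.1 + c.2.1) + 1 - cδ n) * v 2}))) := rfl
  rw [h]
  exact (isClosed_le (by fun_prop) (by fun_prop)).inter
    ((isClosed_le (by fun_prop) (by fun_prop)).inter
    ((isClosed_le (by fun_prop) (by fun_prop)).inter
    ((isClosed_le (by fun_prop) (by fun_prop)).inter
    (isClosed_le (by fun_prop) (by fun_prop)))))

theorem isOpen_coneOp (c : ℕ × ℕ × ℕ) : IsOpen (coneOp n c) := by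
  have h : coneOp n c = {v : E3 | 0 < v 2} ∩ ({v : E3 | (2 * c.1 + cr n c.2.2) * v 2 < v 0} ∩
      ({v : E3 | v 0 < (2 * c.1 + cr n (c.2.2 + 1)) * v 2} ∩ ({v : E3 | 2 * c.2.1 * v 2 < v 1} ∩
      {v : E3 | v 0 + v 1 < (2 * (c.1 + c.2.1) + 1 - cδ n) * v 2}))) := rfl
  rw [h]
  exact (isOpen_lt (by fun_prop) (by fun_prop)).inter
    ((isOpen_lt (by fun_prop) (by fun_prop)).inter
    ((isOpen_lt (by fun_prop) (by fun_prop)).inter
    ((isOpen_lt (by fun_prop) (by fun_prop)).inter
    (isOpen_lt (by fun_prop) (by fun_prop)))))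

/-- The lines of the transversal space with direction in the open cone form a clopen set. -/
theorem isClopen_piece (hn : 2 ≤ n) (hM : 2 * n ≤ M + 1) {c : ℕ × ℕ × ℕ} (hj : c.1 < n)
    (hk : c.2.1 < n) (hi : c.2.2 + 1 < n) :
    IsClopen {L : transversalSpace (tfam n M) | L.1 ∈ dirSet (coneOp n c)} := by
  constructor
  · rw [← isOpen_compl_iff]
    have hopen : IsOpen (dirSet {v : E3 | v ∉ coneCl n c ∧ -v ∉ coneCl n c}) := by
      apply isOpen_dirSet
      have h1 : IsOpen (coneCl n c)ᶜ := (isClosed_coneCl c).isOpen_compl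
      exact h1.inter (h1.preimage continuous_neg)
    have : {L : transversalSpace (tfam n M) | L.1 ∈ dirSet (coneOp n c)}ᶜ =
        Subtype.val ⁻¹' dirSet {v : E3 | v ∉ coneCl n c ∧ -v ∉ coneCl n c} := by
      ext L
      simp only [Set.mem_compl_iff, Set.mem_preimage]
      change ¬ (L.1 ∈ dirSet (coneOp n c)) ↔ _
      constructor
      · intro h
        obtain ⟨v, hv, hv0⟩ := exists_direction L.1
        refine ⟨v, hv, hv0, ?_, ?_⟩
        · intro hcl
          exact h ⟨v, hv, hv0, strict hn hM hj hk hi L.2 hv hv0 hcl⟩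
        · intro hcl
          have hv' : -v ∈ L.1.1.direction := Submodule.neg_mem _ hv
          exact h ⟨-v, hv', neg_ne_zero.mpr hv0,
            strict hn hM hj hk hi L.2 hv' (neg_ne_zero.mpr hv0) hcl⟩
      · rintro ⟨v, hv, hv0, h1, h2⟩ ⟨w, hw, hw0, hwc⟩
        obtain ⟨u, rfl⟩ := direction_smul hv hv0 hw
        have hwc' := coneOp_subset c hwc
        rcases lt_trichotomy u 0 with hu | hu | hu
        · apply h2
          apply coneCl_smul (u := -u) (by linarith)
          rwa [neg_smul_neg]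
        · rw [hu, zero_smul] at hw0; exact hw0 rfl
        · exact h1 (coneCl_smul hu hwc')
    rw [this]
    exact hopen.preimage continuous_subtype_val
  · exact (isOpen_dirSet (isOpen_coneOp c)).preimage continuous_subtype_val

theorem components_ge (hn : 2 ≤ n) (hM : 2 * n ≤ M + 1) (hM2 : M ≤ 2 * n + 4) :
    ((n * (n * (n - 1)) : ℕ) : ℕ∞) ≤
      ENat.card (ConnectedComponents (transversalSpace (tfam n M))) := by
  let I := Fin n × Fin n × Fin (n - 1)
  let f : I → ℕ × ℕ × ℕ := fun c => (c.1, c.2.1, c.2.2)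
  have hf : ∀ c, (f c).2.2 + 1 < n := fun c => by
    have := c.2.2.2
    change (c.2.2 : ℕ) + 1 < n
    omega
  have h := card_le_components (X := transversalSpace (tfam n M)) (I := I)
    (fun c => ⟨sampleLine n (f c), sample_mem hn hM2 c.1.2 c.2.1.2 (hf c)⟩)
    (fun c => {L | L.1 ∈ dirSet (coneOp n (f c))})
    (fun c => isClopen_piece hn hM c.1.2 c.2.1.2 (hf c))
    (fun c => sample_dir hn (hf c))
    (fun c d hcd => by
      have := sep hn (hf c) (hf d) hcd
      simp only [f, Prod.mk.injEq] at this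
      obtain ⟨h1, h2, h3⟩ := this
      exact Prod.ext (Fin.ext h1) (Prod.ext (Fin.ext h2) (Fin.ext h3)))
  refine le_trans (le_of_eq ?_) h
  rw [ENat.card_eq_coe_fintype_card]
  simp [I]

end Pool.Agent.H44.TT
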