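import Pool.Agent.H44.TT.Body

set_option autoImplicit false

/-!
# [H44 TT Cnt] Exactly `N` translates (MP_ce02af_co)
-/

namespace Pool.Agent.H44.TT

open Pool.Agent.H44.TB

/-- The body has interior points. -/
theorem body_interior (n : ℕ) : (interior (body n)).Nonempty := by
  have hL := cl_pos (n := n)
  have hS : IsOpen ({x : E3 | (x 2) ^ 2 / 4 < x 0} ∩ ({x : E3 | (x 2) ^ 2 / 4 < x 1} ∩
      ({x : E3 | cl n + (x 2) ^ 2 / (4 * cM n) < x 0 + x 1} ∩
      ({x : E3 | 3 * ca n * |x 2| < 6 * cl n} ∩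
      {x : E3 | (x 0 - 2 * cl n) ^ 2 + (x 1 - 2 * cl n) ^ 2 <
        (6 * cl n - 3 * ca n * |x 2|) ^ 2})))) := by
    refine IsOpen.inter ?_ (IsOpen.inter ?_ (IsOpen.inter ?_ (IsOpen.inter ?_ ?_)))
    · exact isOpen_lt (by fun_prop) (by fun_prop)
    · exact isOpen_lt (by fun_prop) (by fun_prop)
    · exact isOpen_lt (by fun_prop) (by fun_prop)
    · exact isOpen_lt (by fun_prop) (by fun_prop)
    · exact isOpen_lt (by fun_prop) (by fun_prop)
  refine ⟨pt (2 * cl n) (2 * cl n) 0, mem_interior.2 ⟨_, ?_, hS, ?_⟩⟩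
  · rintro x ⟨h1, h2, h3, h4, h5⟩
    exact ⟨le_of_lt h1, le_of_lt h2, le_of_lt h3, le_of_lt h4, le_of_lt h5⟩
  · refine ⟨?_, ?_, ?_, ?_, ?_⟩
    · change (0 : ℝ) ^ 2 / 4 < 2 * cl n
      norm_num; exact hL
    · change (0 : ℝ) ^ 2 / 4 < 2 * cl n
      norm_num; exact hL
    · change cl n + (0 : ℝ) ^ 2 / (4 * cM n) < 2 * cl n + 2 * cl n
      norm_num; linarith
    · change 3 * ca n * |(0 : ℝ)| < 6 * cl n
      rw [abs_zero, mul_zero]; linarith
    · change (2 * cl n - 2 * cl n) ^ 2 + (2 * cl n - 2 * cl n) ^ 2 <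
        (6 * cl n - 3 * ca n * |(0 : ℝ)|) ^ 2
      rw [abs_zero, mul_zero, sub_zero, sub_self]
      have : 0 < (6 * cl n) ^ 2 := by positivity
      linarith

/-- A nonempty bounded set differs from its translates, so the translates in `Translates` are
distinct sets. -/
theorem translate_injective {K : Set E3} (hK : IsCompact K) (hne : K.Nonempty) {s t : E3}
    (h : {x : E3 | x - s ∈ K} = {x : E3 | x - t ∈ K}) : s = t := by
  by_contra hst
  obtain ⟨x0, hx0⟩ := hne
  have hstep : ∀ x ∈ K, x + (s - t) ∈ K := by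
    intro x hx
    have h1 : x + s ∈ {x : E3 | x - s ∈ K} := by
      change x + s - s ∈ K
      rwa [add_sub_cancel_right]
    rw [h] at h1
    have h2 : x + s - t ∈ K := h1
    rwa [add_sub_assoc] at h2
  have hmul : ∀ m : ℕ, x0 + m • (s - t) ∈ K := by
    intro m
    induction m with
    | zero => simpa using hx0
    | succ m ih =>
      have := hstep _ ih
      rwa [add_assoc, ← succ_nsmul] at this
  obtain ⟨C, hC⟩ := hK.isBounded.exists_norm_le
  have hpos : 0 < ‖s - t‖ := norm_pos_iff.mpr (sub_ne_zero.mpr hst)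
  obtain ⟨m, hm⟩ := exists_nat_gt ((C + ‖x0‖) / ‖s - t‖)
  rw [div_lt_iff₀ hpos] at hm
  have h3 := hC _ (hmul m)
  have h4 : ‖(m : ℕ) • (s - t)‖ ≤ ‖x0 + (m : ℕ) • (s - t)‖ + ‖x0‖ := by
    have := norm_sub_le (x0 + (m : ℕ) • (s - t)) x0
    rwa [add_sub_cancel_left] at this
  have h5 : ‖(m : ℕ) • (s - t)‖ = m * ‖s - t‖ := by
    rw [← Nat.cast_smul_eq_nsmul ℝ, norm_smul, Real.norm_natCast]
  rw [h5] at h4
  linarith

/-- The final statement for `N` translates of one body. -/
def Translates (N : ℕ) : Prop :=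
  ∃ (K : Set E3) (t : Fin N → E3), IsCompact K ∧ Convex ℝ K ∧ (interior K).Nonempty ∧
    HasComplexity 7 2 K ∧ Function.Injective (fun i => {x : E3 | x - t i ∈ K}) ∧
    (N : ℕ∞) ^ 3 ≤ 1000 * ENat.card (ConnectedComponents
      (transversalSpace fun i => {x | x - t i ∈ K}))

theorem translates_of (hcomp : ∀ {n M : ℕ}, 2 ≤ n → 2 * n ≤ M + 1 → M ≤ 2 * n + 4 →
      ((n * (n * (n - 1)) : ℕ) : ℕ∞) ≤
        ENat.card (ConnectedComponents (transversalSpace (tfam n M))))
    {N : ℕ} (hN : 10 ≤ N) : Translates N := by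
  set n := N / 5 with hn
  set M := N - 3 * n with hM
  have hn2 : 2 ≤ n := by omega
  have hMn : 2 * n ≤ M := by omega
  have hMn2 : M ≤ 2 * n + 4 := by omega
  have hcard : Fintype.card (Idx n M) = N := by
    simp only [Idx, Fintype.card_sum, Fintype.card_fin]; omega
  let e : Fin N ≃ Idx n M := (Fintype.equivFinOfCardEq hcard).symm
  have htr : transversalSpace (fun i => tfam n M (e i)) = transversalSpace (tfam n M) := by
    ext L
    constructor
    · intro h i
      have := h (e.symm i)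
      simpa using this
    · intro h i
      exact h (e i)
  refine ⟨body n, fun i => tau n M (e i), body_compact n, body_convex n, body_interior n,
    body_complexity n, fun i j hij => ((tau_injective hn2).comp e.injective)
      (translate_injective (body_compact n) ((body_interior n).mono interior_subset) hij), ?_⟩
  change (N : ℕ∞) ^ 3 ≤
    1000 * ENat.card (ConnectedComponents (transversalSpace fun i => tfam n M (e i)))
  rw [htr]
  have h2 := hcomp (n := n) (M := M) hn2 (by omega) hMn2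
  have h3 : N ^ 3 ≤ 1000 * (n * (n * (n - 1))) := by
    have h4 : N ≤ 5 * n + 4 := by omega
    have h5 : N ^ 3 ≤ (5 * n + 4) ^ 3 := Nat.pow_le_pow_left h4 3
    refine h5.trans ?_
    obtain ⟨m, hm⟩ : ∃ m, n = m + 2 := ⟨n - 2, by omega⟩
    rw [hm]
    simp only [show m + 2 - 1 = m + 1 by omega]
    nlinarith [Nat.zero_le m, Nat.zero_le (m ^ 2), Nat.zero_le (m ^ 3)]
  calc (N : ℕ∞) ^ 3 = ((N ^ 3 : ℕ) : ℕ∞) := by push_cast; rfl
    _ ≤ ((1000 * (n * (n * (n - 1))) : ℕ) : ℕ∞) := by exact_mod_cast h3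
    _ = 1000 * ((n * (n * (n - 1)) : ℕ) : ℕ∞) := by push_cast; rfl
    _ ≤ _ := by gcongr

end Pool.Agent.H44.TT
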