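import Pool.Agent.H44.TB.Cnt

set_option autoImplicit false

/-!
# [H44 TT Def] The body `K` and its translates (MP_ce02af_co)

`a = n + 1`, `δ = 1 / (16 a²)`, `M = 512 a⁴ = 2 / δ²`, `L = 34 M² a²`, `c = 2 L`, `ρ = 6 L`.
`K = {x ≥ z² / 4, y ≥ z² / 4, x + y ≥ L + z² / (4 M), |(x, y) - (c, c)| + 3 a |z| ≤ ρ}`.
Translates: `A_j ⊆ {x ≥ 2 j z + z² / 4}`, `B_k ⊆ {y ≥ 2 k z + z² / 4}`,
`F_r ⊆ {|(x, y) - c_r| + 3 a |z| ≤ ρ}`, `c_r = (-r², -(1-r)²) - ρ (1 - r, r) / m_r`,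
`H_w ⊆ {x + y ≥ w z + z² / (4 M)}`, `w = 2 m + 1 - δ`.
-/

namespace Pool.Agent.H44.TT

open Pool.Agent.H44.TB

/-- `M = 512 a⁴`. -/
noncomputable def cM (n : ℕ) : ℝ := 512 * ca n ^ 4
/-- `L = 34 M² a²`. -/
noncomputable def cl (n : ℕ) : ℝ := 34 * cM n ^ 2 * ca n ^ 2
/-- `m_r`. -/
noncomputable def cm (r : ℝ) : ℝ := Real.sqrt ((1 - r) ^ 2 + r ^ 2)

/-- The body. -/
def body (n : ℕ) : Set E3 :=
  {x | (x 2) ^ 2 / 4 ≤ x 0 ∧ (x 2) ^ 2 / 4 ≤ x 1 ∧ cl n + (x 2) ^ 2 / (4 * cM n) ≤ x 0 + x 1 ∧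
    3 * ca n * |x 2| ≤ 6 * cl n ∧
    (x 0 - 2 * cl n) ^ 2 + (x 1 - 2 * cl n) ^ 2 ≤ (6 * cl n - 3 * ca n * |x 2|) ^ 2}

/-- The translation vectors. -/
noncomputable def tau (n M : ℕ) : Idx n M → E3
  | Sum.inl (Sum.inl j) => pt (-(4 * (j : ℕ) ^ 2)) (-(2 * cl n)) (-(4 * (j : ℕ)))
  | Sum.inl (Sum.inr k) => pt (-(2 * cl n)) (-(4 * (k : ℕ) ^ 2)) (-(4 * (k : ℕ)))
  | Sum.inr (Sum.inl l) => pt
      (-(cr n l) ^ 2 - 6 * cl n * ((1 - cr n l) / cm (cr n l)) - 2 * cl n)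
      (-(1 - cr n l) ^ 2 - 6 * cl n * (cr n l / cm (cr n l)) - 2 * cl n) 0
  | Sum.inr (Sum.inr m) => pt
      (-((cl n + cM n * (2 * (m : ℕ) + 1 - cδ n) ^ 2) / 2))
      (-((cl n + cM n * (2 * (m : ℕ) + 1 - cδ n) ^ 2) / 2))
      (-(2 * cM n * (2 * (m : ℕ) + 1 - cδ n)))

/-- The translates. -/
def tfam (n M : ℕ) (i : Idx n M) : Set E3 := {x | x - tau n M i ∈ body n}

variable {n M : ℕ}

theorem cM_pos : 0 < cM n := by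
  have := ca_pos (n := n)
  unfold cM; positivity

theorem cl_pos : 0 < cl n := by
  have := ca_pos (n := n)
  have := cM_pos (n := n)
  unfold cl; positivity

theorem cm_pos (r : ℝ) : 0 < cm r := by
  unfold cm
  apply Real.sqrt_pos.2
  nlinarith [sq_nonneg (1 - r), sq_nonneg r, sq_nonneg (1 - 2 * r)]

theorem cm_sq (r : ℝ) : cm r ^ 2 = (1 - r) ^ 2 + r ^ 2 := by
  unfold cm
  exact Real.sq_sqrt (by positivity)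

end Pool.Agent.H44.TT
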