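import Pool.Agent.H44.TT.Str
import Pool.Agent.H44.TB.Smp

set_option autoImplicit false

/-!
# [H44 TT Smp] The sample lines (MP_ce02af_co, translates)

The sample lines are those of `CubicLowerBound` (helper34).
-/

namespace Pool.Agent.H44.TT

open Pool.Agent.H44.TB (E3 Line3 transversalSpace dirSet ext3 line_coords pt ca cδ cr Idx ca_ge ca_pos
  cδ_pos cδ_lt cr_pos cr_gap cr_lt_one cr_succ tangent_gap edge_gap lin mem_lin dir_lin pt_ne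
  direction_smul smp smp_pos smp_mid smp_mid' cδ_small smp_t_pos marg pt_0 pt_1 pt_2)

variable {n M : ℕ}

section Arithmetic

theorem disc {L a X Y Z : ℝ} (hL : 0 < L) (hX0 : 0 ≤ X) (hX : X ≤ 9 / 2 * L) (hY0 : 0 ≤ Y)
    (hY : Y ≤ 9 / 2 * L) (hZ : 3 * a * |Z| ≤ L) :
    3 * a * |Z| ≤ 6 * L ∧
      (X - 2 * L) ^ 2 + (Y - 2 * L) ^ 2 ≤ (6 * L - 3 * a * |Z|) ^ 2 := by
  refine ⟨by linarith, ?_⟩
  have h1 : (X - 2 * L) ^ 2 ≤ (5 / 2 * L) ^ 2 := by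
    apply sq_le_sq' <;> linarith
  have h2 : (Y - 2 * L) ^ 2 ≤ (5 / 2 * L) ^ 2 := by
    apply sq_le_sq' <;> linarith
  have h3 : (5 * L) ^ 2 ≤ (6 * L - 3 * a * |Z|) ^ 2 :=
    pow_le_pow_left₀ (by linarith) (by linarith) 2
  nlinarith [sq_nonneg L]

theorem smpA {a L M A B s t J X Y Z : ℝ} (ha : 3 ≤ a) (hM : 1 ≤ M) (hL : 100 * a ^ 2 ≤ L)
    (hA0 : 0 ≤ A) (hA : A ≤ 2 * a) (hB0 : 0 ≤ B) (hB : B ≤ 2 * a) (hJ0 : 0 ≤ J) (hJ : J ≤ a)
    (ht : t ^ 2 ≤ 1) (hs : s ^ 2 ≤ (A - 2 * J) ^ 2)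
    (eX : X = -s ^ 2 + A * (2 * (A - 2 * J)) + 4 * J ^ 2)
    (eY : Y = -t ^ 2 + B * (2 * (A - 2 * J)) + 2 * L) (eZ : Z = 2 * A) :
    Z ^ 2 / 4 ≤ X ∧ Z ^ 2 / 4 ≤ Y ∧ L + Z ^ 2 / (4 * M) ≤ X + Y ∧ 3 * a * |Z| ≤ 6 * L ∧
      (X - 2 * L) ^ 2 + (Y - 2 * L) ^ 2 ≤ (6 * L - 3 * a * |Z|) ^ 2 := by
  have ha0 : 0 < a := by linarith
  have ha2 : 9 ≤ a ^ 2 := by nlinarith
  have hA2 : A ^ 2 ≤ 4 * a ^ 2 := by nlinarith
  have hAJ : (A - 2 * J) ^ 2 ≤ 4 * a ^ 2 := by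
    have h : (A - 2 * J) ^ 2 ≤ (2 * a) ^ 2 := by apply sq_le_sq' <;> linarith
    nlinarith
  have h1 : Z ^ 2 / 4 = A ^ 2 := by rw [eZ]; ring
  have h2 : A ^ 2 ≤ X := by rw [eX]; nlinarith
  have h2' : X ≤ 8 * a ^ 2 := by rw [eX]; nlinarith [sq_nonneg s]
  have h3 : |B * (2 * (A - 2 * J))| ≤ 8 * a ^ 2 := by
    rw [abs_mul, abs_of_nonneg hB0]
    have h : |2 * (A - 2 * J)| ≤ 4 * a := abs_le.2 ⟨by linarith, by linarith⟩
    calc B * |2 * (A - 2 * J)| ≤ 2 * a * (4 * a) := mul_le_mul hB h (abs_nonneg _) (by linarith)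
      _ = 8 * a ^ 2 := by ring
  obtain ⟨h4, h5⟩ := abs_le.1 h3
  have h6 : Z ^ 2 / (4 * M) ≤ A ^ 2 := by
    rw [eZ, div_le_iff₀ (by linarith)]
    nlinarith [sq_nonneg A]
  have h7 : 3 * a * |Z| ≤ 12 * a ^ 2 := by
    rw [eZ, abs_of_nonneg (by linarith)]
    nlinarith
  have hL0 : 0 < L := by linarith
  have hX0 : 0 ≤ X := le_trans (sq_nonneg A) h2
  have ht0 := sq_nonneg t
  refine ⟨by rw [h1]; exact h2, by rw [h1, eY]; linarith, by rw [eY]; linarith, ?_⟩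
  exact disc hL0 hX0 (by linarith) (by rw [eY]; linarith) (by rw [eY]; linarith) (by linarith)

theorem smpH {a L M A B s t w δ X Y Z : ℝ} (ha : 3 ≤ a) (hM : 512 ≤ M)
    (hL : L = 34 * M ^ 2 * a ^ 2) (hMδ : M * δ ^ 2 = 2)
    (hA0 : 0 ≤ A) (hA : A ≤ 2 * a) (hB0 : 0 ≤ B) (hB : B ≤ 2 * a) (hs : s ^ 2 ≤ 1)
    (ht : t ^ 2 ≤ 1) (hw0 : 0 ≤ w) (hw : w ≤ 6 * a) (hδ0 : 0 ≤ δ) (hd : δ ≤ |A + B - w|)
    (eX : X = -s ^ 2 + A * (2 * M * (A + B - w)) + (L + M * w ^ 2) / 2)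
    (eY : Y = -t ^ 2 + B * (2 * M * (A + B - w)) + (L + M * w ^ 2) / 2)
    (eZ : Z = 2 * M * (A + B)) :
    Z ^ 2 / 4 ≤ X ∧ Z ^ 2 / 4 ≤ Y ∧ L + Z ^ 2 / (4 * M) ≤ X + Y ∧ 3 * a * |Z| ≤ 6 * L ∧
      (X - 2 * L) ^ 2 + (Y - 2 * L) ^ 2 ≤ (6 * L - 3 * a * |Z|) ^ 2 := by
  have ha0 : 0 < a := by linarith
  have hM0 : 0 < M := by linarith
  have ha2 : 9 ≤ a ^ 2 := by nlinarith
  set N := M * a ^ 2 with hN
  have hN0 : 512 * 9 ≤ N := by
    rw [hN]; exact mul_le_mul hM ha2 (by norm_num) hM0.le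
  have hMN : 512 * N ≤ M * N := mul_le_mul_of_nonneg_right hM (by linarith)
  have hLN : L = 34 * (M * N) := by rw [hL, hN]; ring
  have hd2 : δ ^ 2 ≤ (A + B - w) ^ 2 := by
    rw [← sq_abs (A + B - w)]; exact pow_le_pow_left₀ hδ0 hd 2
  have hd3 : 2 ≤ M * (A + B - w) ^ 2 := by
    rw [← hMδ]; exact mul_le_mul_of_nonneg_left hd2 hM0.le
  have hz : |2 * M * (A + B - w)| ≤ 12 * M * a := by
    rw [abs_mul, abs_of_nonneg (by linarith : (0 : ℝ) ≤ 2 * M)]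
    have h : |A + B - w| ≤ 6 * a := abs_le.2 ⟨by linarith, by linarith⟩
    calc 2 * M * |A + B - w| ≤ 2 * M * (6 * a) := mul_le_mul_of_nonneg_left h (by linarith)
      _ = _ := by ring
  have hAz : ∀ C : ℝ, 0 ≤ C → C ≤ 2 * a → |C * (2 * M * (A + B - w))| ≤ 24 * N := by
    intro C hC0 hC
    rw [abs_mul, abs_of_nonneg hC0]
    calc C * |2 * M * (A + B - w)| ≤ 2 * a * (12 * M * a) :=
          mul_le_mul hC hz (abs_nonneg _) (by linarith)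
      _ = _ := by rw [hN]; ring
  obtain ⟨hA1, hA2⟩ := abs_le.1 (hAz A hA0 hA)
  obtain ⟨hB1, hB2⟩ := abs_le.1 (hAz B hB0 hB)
  have hs0 := sq_nonneg s
  have ht0 := sq_nonneg t
  have hw2 : 0 ≤ M * w ^ 2 := by positivity
  have hw3 : M * w ^ 2 ≤ 36 * N := by
    have h : w ^ 2 ≤ (6 * a) ^ 2 := pow_le_pow_left₀ hw0 hw 2
    calc M * w ^ 2 ≤ M * (6 * a) ^ 2 := mul_le_mul_of_nonneg_left h hM0.le
      _ = _ := by rw [hN]; ring
  have h1 : Z ^ 2 / 4 ≤ 16 * (M * N) := by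
    have h : (A + B) ^ 2 ≤ (4 * a) ^ 2 := pow_le_pow_left₀ (by linarith) (by linarith) 2
    have e : Z ^ 2 / 4 = M ^ 2 * (A + B) ^ 2 := by rw [eZ]; ring
    rw [e]
    calc M ^ 2 * (A + B) ^ 2 ≤ M ^ 2 * (4 * a) ^ 2 := mul_le_mul_of_nonneg_left h (by positivity)
      _ = _ := by rw [hN]; ring
  have h2 : Z ^ 2 / (4 * M) = M * (A + B) ^ 2 := by
    rw [eZ]; field_simp; ring
  have h3 : X + Y = -s ^ 2 - t ^ 2 + M * (A + B - w) ^ 2 + (L + M * (A + B) ^ 2) := by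
    rw [eX, eY]; ring
  have h4 : 3 * a * |Z| ≤ 24 * N := by
    rw [eZ, abs_of_nonneg (by positivity)]
    calc 3 * a * (2 * M * (A + B)) ≤ 3 * a * (2 * M * (4 * a)) := by
          apply mul_le_mul_of_nonneg_left _ (by linarith)
          exact mul_le_mul_of_nonneg_left (by linarith) (by linarith)
      _ = _ := by rw [hN]; ring
  have hX1 : 16 * (M * N) ≤ X := by rw [eX]; linarith
  have hX2 : X ≤ 9 / 2 * L := by rw [eX]; linarith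
  have hY1 : 16 * (M * N) ≤ Y := by rw [eY]; linarith
  have hY2 : Y ≤ 9 / 2 * L := by rw [eY]; linarith
  refine ⟨h1.trans hX1, h1.trans hY1, by rw [h2, h3]; linarith, ?_⟩
  exact disc (by linarith) (by linarith) hX2 (by linarith) hY2 (by linarith)

theorem smpF {a L M s t r m h X Y : ℝ} (ha : 3 ≤ a) (hL : 100 * a ^ 3 ≤ L) (hr0 : 0 < r)
    (hr1 : r < 1) (hm : 0 < m) (hm2 : m ^ 2 = (1 - r) ^ 2 + r ^ 2) (hs : s ^ 2 ≤ 1)
    (ht : t ^ 2 ≤ 1) (hh : h = 1 / (8 * a ^ 3))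
    (hg : (1 - r) * (-s ^ 2) + r * (-t ^ 2) + r * (1 - r) ≤ -(2 * h))
    (eX : X = -s ^ 2 + r ^ 2 + 6 * L * ((1 - r) / m) + 2 * L)
    (eY : Y = -t ^ 2 + (1 - r) ^ 2 + 6 * L * (r / m) + 2 * L) :
    (0 : ℝ) ^ 2 / 4 ≤ X ∧ (0 : ℝ) ^ 2 / 4 ≤ Y ∧ L + (0 : ℝ) ^ 2 / (4 * M) ≤ X + Y ∧
      3 * a * |(0 : ℝ)| ≤ 6 * L ∧
      (X - 2 * L) ^ 2 + (Y - 2 * L) ^ 2 ≤ (6 * L - 3 * a * |(0 : ℝ)|) ^ 2 := by
  have ha0 : 0 < a := by linarith
  have ha3 : 27 ≤ a ^ 3 := by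
    calc (27 : ℝ) = 3 ^ 3 := by norm_num
      _ ≤ a ^ 3 := pow_le_pow_left₀ (by norm_num) ha 3
  have hL0 : 0 < L := by linarith
  have hm1 : m ≤ 1 := by
    have h1 : m ^ 2 ≤ 1 ^ 2 := by
      rw [hm2]; nlinarith
    exact le_of_sq_le_sq h1 (by norm_num)
  have hu1 : 0 ≤ (1 - r) / m := div_nonneg (by linarith) hm.le
  have hu2 : 0 ≤ r / m := div_nonneg hr0.le hm.le
  have hu : ((1 - r) / m) ^ 2 + (r / m) ^ 2 = 1 := by
    rw [div_pow, div_pow, ← add_div, ← hm2]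
    exact div_self (by positivity)
  have hr2 : r ^ 2 ≤ 1 := pow_le_one₀ hr0.le hr1.le
  have hr3 : (1 - r) ^ 2 ≤ 1 := pow_le_one₀ (by linarith) (by linarith)
  have hs0 := sq_nonneg s
  have ht0 := sq_nonneg t
  have hr20 := sq_nonneg r
  have hr30 := sq_nonneg (1 - r)
  have w1 : (-s ^ 2 + r ^ 2) ^ 2 ≤ 1 := by nlinarith
  have w2 : (-t ^ 2 + (1 - r) ^ 2) ^ 2 ≤ 1 := by nlinarith
  have hh0 : 0 < h := by rw [hh]; positivity
  have hw : (-s ^ 2 + r ^ 2) * ((1 - r) / m) + (-t ^ 2 + (1 - r) ^ 2) * (r / m) ≤ -(2 * h) := by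
    have e : (-s ^ 2 + r ^ 2) * ((1 - r) / m) + (-t ^ 2 + (1 - r) ^ 2) * (r / m) =
        ((1 - r) * (-s ^ 2) + r * (-t ^ 2) + r * (1 - r)) / m := by
      field_simp; ring
    rw [e, div_le_iff₀ hm]
    nlinarith
  have hLh : 3 ≤ 12 * L * (2 * h) := by
    have e : 12 * L * (2 * h) = 3 * (L / a ^ 3) := by rw [hh]; field_simp; norm_num
    rw [e]
    have : 1 ≤ L / a ^ 3 := by
      rw [le_div_iff₀ (by positivity)]; linarith
    linarith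
  have hX0 : 0 ≤ 6 * L * ((1 - r) / m) := by positivity
  have hY0 : 0 ≤ 6 * L * (r / m) := by positivity
  refine ⟨by rw [eX]; norm_num; linarith, by rw [eY]; norm_num; linarith,
    by rw [eX, eY]; norm_num; linarith, by rw [abs_zero, mul_zero]; linarith, ?_⟩
  rw [abs_zero, mul_zero, sub_zero]
  have e : (X - 2 * L) ^ 2 + (Y - 2 * L) ^ 2 = (-s ^ 2 + r ^ 2) ^ 2 + (-t ^ 2 + (1 - r) ^ 2) ^ 2 +
      12 * L * ((-s ^ 2 + r ^ 2) * ((1 - r) / m) + (-t ^ 2 + (1 - r) ^ 2) * (r / m)) +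
      (6 * L) ^ 2 * (((1 - r) / m) ^ 2 + (r / m) ^ 2) := by
    rw [eX, eY]; ring
  rw [e, hu]
  have h5 : 12 * L * ((-s ^ 2 + r ^ 2) * ((1 - r) / m) + (-t ^ 2 + (1 - r) ^ 2) * (r / m)) ≤
      12 * L * (-(2 * h)) := mul_le_mul_of_nonneg_left hw (by linarith)
  linarith

end Arithmetic

theorem mem_of {i : Idx n M} {x y z τ0 τ1 τ2 X Y Z : ℝ} (hτ : tau n M i = pt τ0 τ1 τ2)
    (eX : X = x - τ0) (eY : Y = y - τ1) (eZ : Z = z - τ2)
    (h : Z ^ 2 / 4 ≤ X ∧ Z ^ 2 / 4 ≤ Y ∧ cl n + Z ^ 2 / (4 * cM n) ≤ X + Y ∧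
      3 * ca n * |Z| ≤ 6 * cl n ∧
      (X - 2 * cl n) ^ 2 + (Y - 2 * cl n) ^ 2 ≤ (6 * cl n - 3 * ca n * |Z|) ^ 2) :
    pt x y z ∈ tfam n M i := by
  change pt x y z - tau n M i ∈ body n
  rw [hτ]
  subst eX eY eZ
  exact h

theorem cM_ge (hn : 2 ≤ n) : 512 ≤ cM n := by
  have ha := ca_ge hn
  have : 1 ≤ ca n ^ 4 := one_le_pow₀ (by linarith)
  unfold cM; linarith

theorem cMδ (n : ℕ) : cM n * cδ n ^ 2 = 2 := by
  have ha0 : 0 < ca n := ca_pos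
  unfold cM cδ; field_simp; norm_num

theorem cl_ge3 (hn : 2 ≤ n) : 100 * ca n ^ 3 ≤ cl n := by
  have ha := ca_ge hn
  have ha0 : 0 < ca n := ca_pos
  have hM := cM_ge hn
  have h1 : ca n ^ 3 ≤ ca n ^ 4 := pow_le_pow_right₀ (by linarith) (by norm_num)
  have h2 : ca n ^ 3 ≤ cM n := by unfold cM; nlinarith [pow_pos ha0 4]
  have h3 : 1 ≤ ca n ^ 2 := one_le_pow₀ (by linarith)
  have h4 : cM n * 512 ≤ cM n * cM n := mul_le_mul_of_nonneg_left hM (by linarith)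
  have h5 : cM n * cM n * 1 ≤ cM n * cM n * ca n ^ 2 :=
    mul_le_mul_of_nonneg_left h3 (by nlinarith)
  unfold cl
  nlinarith [pow_pos ha0 3]

theorem cl_ge2 (hn : 2 ≤ n) : 100 * ca n ^ 2 ≤ cl n := by
  have ha := ca_ge hn
  have ha0 : 0 < ca n := ca_pos
  have h1 : ca n ^ 2 ≤ ca n ^ 3 := pow_le_pow_right₀ (by linarith) (by norm_num)
  have h2 := cl_ge3 hn
  linarith

/-- The sample line. -/
noncomputable def sampleLine (n : ℕ) (c : ℕ × ℕ × ℕ) : Line3 :=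
  lin (2 * c.1 + smp n c.2.2) (2 * c.2.1 + (1 - smp n c.2.2 - 2 * cδ n))
    (-(smp n c.2.2) ^ 2) (-(1 - smp n c.2.2 - 2 * cδ n) ^ 2)

theorem sample_mem (hn : 2 ≤ n) (hM2 : M ≤ 2 * n + 4) {c : ℕ × ℕ × ℕ} (hc1 : c.1 < n)
    (hc2 : c.2.1 < n) (hi : c.2.2 + 1 < n) : sampleLine n c ∈ transversalSpace (tfam n M) := by
  obtain ⟨j, k, i⟩ := c
  simp only at hi hc1 hc2
  have ha := ca_ge hn
  have ha0 : 0 < ca n := ca_pos
  have hδ0 : 0 < cδ n := cδ_pos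
  have hδ1 := cδ_lt hn
  have hcM := cM_ge hn
  set s := smp n i with hs
  set t := 1 - smp n i - 2 * cδ n with ht
  have hs0 : 0 < s := smp_pos i
  have ht0 : 0 < t := smp_t_pos hn hi
  have hst : s + t = 1 - 2 * cδ n := by rw [hs, ht]; ring
  have hs1 : s ≤ 1 := by linarith
  have ht1 : t ≤ 1 := by linarith
  have hs21 : s ^ 2 ≤ 1 := pow_le_one₀ hs0.le hs1
  have ht21 : t ^ 2 ≤ 1 := pow_le_one₀ ht0.le ht1
  have hj0 : (0 : ℝ) ≤ j := by positivity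
  have hk0 : (0 : ℝ) ≤ k := by positivity
  have hjn : (j : ℝ) + 1 ≤ n := by exact_mod_cast hc1
  have hkn : (k : ℝ) + 1 ≤ n := by exact_mod_cast hc2
  have hA0 : 0 ≤ 2 * (j : ℝ) + s := by linarith
  have hB0 : 0 ≤ 2 * (k : ℝ) + t := by linarith
  have hA1 : 2 * (j : ℝ) + s ≤ 2 * ca n := by unfold ca; linarith
  have hB1 : 2 * (k : ℝ) + t ≤ 2 * ca n := by unfold ca; linarith
  have key : ∀ (u : ℝ) (j j' : ℕ), 0 < u → u ≤ 1 →
      u ^ 2 ≤ (2 * (j : ℝ) + u - 2 * j') ^ 2 := by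
    intro u j j' hu hu1
    rcases le_or_gt j' j with h | h
    · have : (j' : ℝ) ≤ j := by exact_mod_cast h
      nlinarith
    · have : (j : ℝ) + 1 ≤ j' := by exact_mod_cast h
      nlinarith
  have hJ : ∀ j' : Fin n, (0 : ℝ) ≤ ((j' : ℕ) : ℝ) ∧ ((j' : ℕ) : ℝ) ≤ ca n := by
    intro j'
    have h1 : ((j' : ℕ) : ℝ) + 1 ≤ n := by exact_mod_cast j'.2
    exact ⟨by positivity, by unfold ca; linarith⟩
  change lin (2 * (j : ℝ) + s) (2 * (k : ℝ) + t) (-s ^ 2) (-t ^ 2) ∈ _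
  rintro ((j' | k') | (l | m))
  · refine ⟨_, mem_lin (2 * (j : ℝ) + s) (2 * (k : ℝ) + t) (-s ^ 2) (-t ^ 2)
      (2 * (2 * (j : ℝ) + s - 2 * (j' : ℕ))), ?_⟩
    refine mem_of (τ0 := -(4 * ((j' : ℕ) : ℝ) ^ 2)) (τ1 := -(2 * cl n))
      (τ2 := -(4 * ((j' : ℕ) : ℝ))) rfl rfl rfl rfl ?_
    exact smpA ha (by linarith) (cl_ge2 hn) hA0 hA1 hB0 hB1 (hJ j').1 (hJ j').2 ht21
      (key s j j' hs0 hs1) (by ring) (by ring) (by ring)
  · refine ⟨_, mem_lin (2 * (j : ℝ) + s) (2 * (k : ℝ) + t) (-s ^ 2) (-t ^ 2)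
      (2 * (2 * (k : ℝ) + t - 2 * (k' : ℕ))), ?_⟩
    refine mem_of (τ0 := -(2 * cl n)) (τ1 := -(4 * ((k' : ℕ) : ℝ) ^ 2))
      (τ2 := -(4 * ((k' : ℕ) : ℝ))) rfl rfl rfl rfl ?_
    obtain ⟨h1, h2, h3, h4, h5⟩ := smpA ha (by linarith : 1 ≤ cM n) (cl_ge2 hn) hB0 hB1 hA0 hA1
      (hJ k').1 (hJ k').2 hs21 (key t k k' ht0 ht1) rfl rfl rfl
    have eZ : 2 * (2 * (k : ℝ) + t - 2 * ((k' : ℕ) : ℝ)) - -(4 * ((k' : ℕ) : ℝ)) =
      2 * (2 * (k : ℝ) + t) := by ring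
    have eX : -s ^ 2 + (2 * (j : ℝ) + s) * (2 * (2 * (k : ℝ) + t - 2 * ((k' : ℕ) : ℝ))) -
      -(2 * cl n) = -s ^ 2 + (2 * (j : ℝ) + s) * (2 * (2 * (k : ℝ) + t - 2 * ((k' : ℕ) : ℝ))) +
      2 * cl n := by ring
    have eY : -t ^ 2 + (2 * (k : ℝ) + t) * (2 * (2 * (k : ℝ) + t - 2 * ((k' : ℕ) : ℝ))) -
      -(4 * ((k' : ℕ) : ℝ) ^ 2) =
      -t ^ 2 + (2 * (k : ℝ) + t) * (2 * (2 * (k : ℝ) + t - 2 * ((k' : ℕ) : ℝ))) +
      4 * ((k' : ℕ) : ℝ) ^ 2 := by ring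
    rw [eZ, eX, eY]
    exact ⟨h2, h1, by linarith, h4, by linarith⟩
  · refine ⟨_, mem_lin (2 * (j : ℝ) + s) (2 * (k : ℝ) + t) (-s ^ 2) (-t ^ 2) 0, ?_⟩
    have hl : 1 / (2 * ca n) ≤ |s - cr n l| := by
      rcases le_or_gt (l : ℕ) i with h | h
      · have h1 : cr n l ≤ cr n i := by
          unfold cr
          apply div_le_div_of_nonneg_right _ ha0.le
          have : ((l : ℕ) : ℝ) ≤ i := by exact_mod_cast h
          linarith
        have h2 := smp_mid (n := n) i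
        rw [← hs] at h2
        have : 0 < 1 / (2 * ca n) := by positivity
        rw [abs_of_nonneg]
        · linarith
        · linarith
      · have h1 : cr n (i + 1) ≤ cr n l := by
          unfold cr
          apply div_le_div_of_nonneg_right _ ha0.le
          have : (i : ℝ) + 1 ≤ ((l : ℕ) : ℝ) := by exact_mod_cast h
          push_cast; linarith
        have h2 := smp_mid' (n := n) i
        rw [← hs] at h2
        have : 0 < 1 / (2 * ca n) := by positivity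
        rw [abs_of_nonpos]
        · linarith
        · linarith
    have hm := marg (h := 1 / (8 * ca n ^ 3)) ha (rfl : cδ n = 1 / (16 * ca n ^ 2)) rfl
      (cr_pos (n := n) l) (cr_gap l.2) hs0 (t := t) (by rw [ht]) ht0.le hl
    have hg : (1 - cr n l) * (-s ^ 2) + cr n l * (-t ^ 2) + cr n l * (1 - cr n l) ≤
        -(2 * (1 / (8 * ca n ^ 3))) := by linarith
    have h := smpF (M := cM n) ha (cl_ge3 hn) (cr_pos l) (cr_lt_one l.2) (cm_pos (cr n l))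
      (cm_sq (cr n l)) hs21 ht21 rfl hg rfl rfl
    refine mem_of (X := -s ^ 2 + cr n l ^ 2 + 6 * cl n * ((1 - cr n l) / cm (cr n l)) + 2 * cl n)
      (Y := -t ^ 2 + (1 - cr n l) ^ 2 + 6 * cl n * (cr n l / cm (cr n l)) + 2 * cl n) (Z := 0)
      (τ0 := -(cr n l) ^ 2 - 6 * cl n * ((1 - cr n l) / cm (cr n l)) - 2 * cl n)
      (τ1 := -(1 - cr n l) ^ 2 - 6 * cl n * (cr n l / cm (cr n l)) - 2 * cl n)
      (τ2 := 0) rfl (by ring) (by ring) (by ring) h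
  · have hmM : ((m : ℕ) : ℝ) + 1 ≤ 2 * n + 4 := by
      have : (m : ℕ) + 1 ≤ 2 * n + 4 := by have := m.2; omega
      exact_mod_cast this
    have hm0 : (0 : ℝ) ≤ ((m : ℕ) : ℝ) := by positivity
    have hn2 : (2 : ℝ) ≤ n := by exact_mod_cast hn
    have hX : cδ n ≤ |(2 * (j : ℝ) + s) + (2 * (k : ℝ) + t) - (2 * ((m : ℕ) : ℝ) + 1 - cδ n)| := by
      have e0 : (2 * (j : ℝ) + s) + (2 * (k : ℝ) + t) - (2 * ((m : ℕ) : ℝ) + 1 - cδ n) =
          2 * (((j + k : ℕ) : ℝ) - ((m : ℕ) : ℝ)) - cδ n := by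
        push_cast; linarith
      rw [e0]
      rcases le_or_gt (j + k) (m : ℕ) with h | h
      · have h1 : ((j + k : ℕ) : ℝ) ≤ ((m : ℕ) : ℝ) := by exact_mod_cast h
        rw [abs_of_nonpos (by linarith)]
        linarith
      · have h1 : ((m : ℕ) : ℝ) + 1 ≤ ((j + k : ℕ) : ℝ) := by exact_mod_cast h
        rw [abs_of_nonneg (by linarith)]
        linarith
    refine ⟨_, mem_lin (2 * (j : ℝ) + s) (2 * (k : ℝ) + t) (-s ^ 2) (-t ^ 2)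
      (2 * cM n * ((2 * (j : ℝ) + s) + (2 * (k : ℝ) + t) - (2 * ((m : ℕ) : ℝ) + 1 - cδ n))), ?_⟩
    refine mem_of (τ0 := -((cl n + cM n * (2 * ((m : ℕ) : ℝ) + 1 - cδ n) ^ 2) / 2))
      (τ1 := -((cl n + cM n * (2 * ((m : ℕ) : ℝ) + 1 - cδ n) ^ 2) / 2))
      (τ2 := -(2 * cM n * (2 * ((m : ℕ) : ℝ) + 1 - cδ n))) rfl rfl rfl rfl ?_
    exact smpH ha hcM rfl (cMδ n) hA0 hA1 hB0 hB1 hs21 ht21
      (w := 2 * ((m : ℕ) : ℝ) + 1 - cδ n) (by linarith) (by unfold ca; linarith) hδ0.le hX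
      (by ring) (by ring) (by ring)

theorem sample_dir (hn : 2 ≤ n) {c : ℕ × ℕ × ℕ} (hi : c.2.2 + 1 < n) :
    sampleLine n c ∈ dirSet (coneOp n c) := by
  obtain ⟨j, k, i⟩ := c
  simp only at hi
  have ha0 : 0 < ca n := ca_pos
  have hδ0 : 0 < cδ n := cδ_pos
  have h1 := smp_mid (n := n) i
  have h2 := smp_mid' (n := n) i
  have h3 := smp_t_pos hn hi
  have h4 : 0 < 1 / (2 * ca n) := by positivity
  refine ⟨_, dir_lin _ _ _ _, pt_ne _ _, ?_⟩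
  rw [mem_coneOp]
  simp only [pt_0, pt_1, pt_2, mul_one]
  refine ⟨one_pos, by linarith, by linarith, by linarith, by linarith⟩

/-- The open cones separate the sample lines. -/
theorem sep (hn : 2 ≤ n) {c d : ℕ × ℕ × ℕ} (hc : c.2.2 + 1 < n) (hd : d.2.2 + 1 < n)
    (h : sampleLine n d ∈ dirSet (coneOp n c)) : c = d := by
  obtain ⟨j, k, i⟩ := c
  obtain ⟨j', k', i'⟩ := d
  simp only at hc hd
  obtain ⟨v, hv, hv0, hvc⟩ := h
  obtain ⟨c, rfl⟩ := direction_smul (dir_lin _ _ _ _) (pt_ne _ _) hv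
  rw [mem_coneOp] at hvc
  simp only [PiLp.smul_apply, pt_0, pt_1, pt_2, smul_eq_mul, mul_one] at hvc
  obtain ⟨h2, hA, hB, hC, hD⟩ := hvc
  have ha0 : 0 < ca n := ca_pos
  have hδ0 : 0 < cδ n := cδ_pos
  rw [mul_comm c] at hA hB hC
  have hA' := lt_of_mul_lt_mul_right hA h2.le
  have hB' := lt_of_mul_lt_mul_right hB h2.le
  have hC' := lt_of_mul_lt_mul_right hC h2.le
  have hD' : 2 * (j' : ℝ) + smp n i' + (2 * k' + (1 - smp n i' - 2 * cδ n)) <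
      2 * (j + k) + 1 - cδ n := by
    have e : c * (2 * (j' : ℝ) + smp n i') + c * (2 * k' + (1 - smp n i' - 2 * cδ n)) =
      (2 * (j' : ℝ) + smp n i' + (2 * k' + (1 - smp n i' - 2 * cδ n))) * c := by ring
    rw [e] at hD
    exact lt_of_mul_lt_mul_right hD h2.le
  -- multiply by `a`
  have eA : 2 * (n + 1) * (j : ℝ) + i + 1 < 2 * (n + 1) * j' + i' + 3 / 2 := by
    have : (2 * (j : ℝ) + cr n i) * ca n < (2 * (j' : ℝ) + smp n i') * ca n :=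
      mul_lt_mul_of_pos_right hA' ha0
    have e1 : (2 * (j : ℝ) + cr n i) * ca n = 2 * ca n * j + i + 1 := by
      unfold cr; field_simp; ring
    have e2 : (2 * (j' : ℝ) + smp n i') * ca n = 2 * ca n * j' + i' + 3 / 2 := by
      unfold smp; field_simp; ring
    rw [e1, e2] at this
    unfold ca at this; exact this
  have eB : 2 * (n + 1) * (j' : ℝ) + i' + 3 / 2 < 2 * (n + 1) * j + i + 2 := by
    have : (2 * (j' : ℝ) + smp n i') * ca n < (2 * (j : ℝ) + cr n (i + 1)) * ca n :=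
      mul_lt_mul_of_pos_right hB' ha0
    have e1 : (2 * (j : ℝ) + cr n (i + 1)) * ca n = 2 * ca n * j + i + 2 := by
      unfold cr; push_cast; field_simp; ring
    have e2 : (2 * (j' : ℝ) + smp n i') * ca n = 2 * ca n * j' + i' + 3 / 2 := by
      unfold smp; field_simp; ring
    rw [e1, e2] at this
    unfold ca at this; exact this
  have nA : 2 * (n + 1) * j + i < 2 * (n + 1) * j' + i' + 1 := by
    have : ((2 * (n + 1) * j + i : ℕ) : ℝ) < ((2 * (n + 1) * j' + i' + 1 : ℕ) : ℝ) := by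
      push_cast; linarith
    exact_mod_cast this
  have nB : 2 * (n + 1) * j' + i' < 2 * (n + 1) * j + i + 1 := by
    have : ((2 * (n + 1) * j' + i' : ℕ) : ℝ) < ((2 * (n + 1) * j + i + 1 : ℕ) : ℝ) := by
      push_cast; linarith
    exact_mod_cast this
  have nE : 2 * (n + 1) * j + i = 2 * (n + 1) * j' + i' := by omega
  have hij : i = i' := by
    have h1 := congrArg (fun x => x % (2 * (n + 1))) nE
    simp only [Nat.mul_add_mod] at h1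
    rwa [Nat.mod_eq_of_lt (by omega), Nat.mod_eq_of_lt (by omega)] at h1
  subst hij
  have hjj : j = j' := by
    have h1 : 2 * (n + 1) * j = 2 * (n + 1) * j' := by omega
    exact Nat.eq_of_mul_eq_mul_left (by omega) h1
  subst hjj
  have ht0 := smp_t_pos hn hd
  have hs0 := smp_pos (n := n) i
  have kA : k < k' + 1 := by
    have : ((k : ℕ) : ℝ) < ((k' + 1 : ℕ) : ℝ) := by push_cast; linarith
    exact_mod_cast this
  have kB : k' < k + 1 := by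
    have : ((k' : ℕ) : ℝ) < ((k + 1 : ℕ) : ℝ) := by
      push_cast; nlinarith [cδ_lt hn]
    exact_mod_cast this
  have : k = k' := by omega
  subst this
  rfl

end Pool.Agent.H44.TT
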