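import Pool.Agent.H44.TT.Def
import Pool.Agent.H44.TB.Str

set_option autoImplicit false

/-!
# [H44 TT Str] A transversal with direction in a closed cone has it in the open cone (MP_ce02af_co, translates)

Adapted from `CubicLowerBound` (helper34).
-/

namespace Pool.Agent.H44.TT

open Pool.Agent.H44.TB (E3 Line3 transversalSpace dirSet ext3 line_coords pt ca cδ cr Idx ca_ge ca_pos
  cδ_pos cδ_lt cr_pos cr_gap cr_lt_one cr_succ tangent_gap edge_gap)

variable {n M : ℕ}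

/-- The closed cone of directions. -/
def coneCl (n : ℕ) (c : ℕ × ℕ × ℕ) : Set E3 :=
  {v | 0 ≤ v 2 ∧ (2 * c.1 + cr n c.2.2) * v 2 ≤ v 0 ∧ v 0 ≤ (2 * c.1 + cr n (c.2.2 + 1)) * v 2 ∧
    2 * c.2.1 * v 2 ≤ v 1 ∧ v 0 + v 1 ≤ (2 * (c.1 + c.2.1) + 1 - cδ n) * v 2}

/-- The open cone of directions. -/
def coneOp (n : ℕ) (c : ℕ × ℕ × ℕ) : Set E3 :=
  {v | 0 < v 2 ∧ (2 * c.1 + cr n c.2.2) * v 2 < v 0 ∧ v 0 < (2 * c.1 + cr n (c.2.2 + 1)) * v 2 ∧
    2 * c.2.1 * v 2 < v 1 ∧ v 0 + v 1 < (2 * (c.1 + c.2.1) + 1 - cδ n) * v 2}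

theorem mem_coneCl {c : ℕ × ℕ × ℕ} {v : E3} : v ∈ coneCl n c ↔
  0 ≤ v 2 ∧ (2 * c.1 + cr n c.2.2) * v 2 ≤ v 0 ∧ v 0 ≤ (2 * c.1 + cr n (c.2.2 + 1)) * v 2 ∧
    2 * c.2.1 * v 2 ≤ v 1 ∧ v 0 + v 1 ≤ (2 * (c.1 + c.2.1) + 1 - cδ n) * v 2 := Iff.rfl

theorem mem_coneOp {c : ℕ × ℕ × ℕ} {v : E3} : v ∈ coneOp n c ↔
  0 < v 2 ∧ (2 * c.1 + cr n c.2.2) * v 2 < v 0 ∧ v 0 < (2 * c.1 + cr n (c.2.2 + 1)) * v 2 ∧
    2 * c.2.1 * v 2 < v 1 ∧ v 0 + v 1 < (2 * (c.1 + c.2.1) + 1 - cδ n) * v 2 := Iff.rfl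

theorem coneOp_subset (c : ℕ × ℕ × ℕ) : coneOp n c ⊆ coneCl n c := fun _ h =>
  ⟨h.1.le, h.2.1.le, h.2.2.1.le, h.2.2.2.1.le, h.2.2.2.2.le⟩

theorem two_thirds (r : ℝ) : 2 / 3 ≤ cm r := by
  have h := cm_sq r
  have h0 := cm_pos r
  by_contra hcon
  push Not at hcon
  have h1 : cm r ^ 2 < (2 / 3) ^ 2 := pow_lt_pow_left₀ hcon h0.le (by norm_num)
  nlinarith [sq_nonneg (1 - 2 * r)]

/-- the double cones -/
theorem cone_nec {a r ρ p q α β z : ℝ} (hr0 : 0 < r) (hr1 : 0 < 1 - r)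
    (hα0 : 0 ≤ α) (hα : α ≤ 2 * a) (hβ0 : 0 ≤ β) (hβ : β ≤ 2 * a)
    (h1 : 3 * a * |z| ≤ ρ)
    (h2 : (p + α * z + r ^ 2 + ρ * ((1 - r) / cm r)) ^ 2 +
      (q + β * z + (1 - r) ^ 2 + ρ * (r / cm r)) ^ 2 ≤ (ρ - 3 * a * |z|) ^ 2) :
    (1 - r) * p + r * q + r * (1 - r) ≤ 0 := by
  have hm := cm_pos r
  have hm2 := cm_sq r
  have hm3 := two_thirds r
  have ha0 : 0 ≤ a := by linarith
  set ξ := p + α * z + r ^ 2 + ρ * ((1 - r) / cm r) with hξ
  set η := q + β * z + (1 - r) ^ 2 + ρ * (r / cm r) with hη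
  have h3 : ((1 - r) * ξ + r * η) ^ 2 ≤ (cm r * (ρ - 3 * a * |z|)) ^ 2 := by
    have h4 : ((1 - r) * ξ + r * η) ^ 2 ≤ ((1 - r) ^ 2 + r ^ 2) * (ξ ^ 2 + η ^ 2) := by
      nlinarith [sq_nonneg ((1 - r) * η - r * ξ)]
    rw [← hm2] at h4
    have h5 : cm r ^ 2 * (ξ ^ 2 + η ^ 2) ≤ cm r ^ 2 * (ρ - 3 * a * |z|) ^ 2 :=
      mul_le_mul_of_nonneg_left h2 (by positivity)
    calc _ ≤ _ := h4
      _ ≤ _ := h5
      _ = _ := by ring
  have h4 : (1 - r) * ξ + r * η ≤ cm r * (ρ - 3 * a * |z|) := by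
    have h5 : 0 ≤ cm r * (ρ - 3 * a * |z|) := mul_nonneg hm.le (by linarith)
    exact (le_abs_self _).trans (abs_le_of_sq_le_sq h3 h5)
  have h5 : (1 - r) * ξ + r * η = (1 - r) * p + r * q + r * (1 - r) +
      ((1 - r) * α + r * β) * z + ρ * cm r := by
    have h6 : ρ * ((1 - r) / cm r) * (1 - r) + ρ * (r / cm r) * r = ρ * cm r := by
      have : ρ * ((1 - r) / cm r) * (1 - r) + ρ * (r / cm r) * r =
          ρ * (((1 - r) ^ 2 + r ^ 2) / cm r) := by field_simp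
      rw [this, ← hm2]
      field_simp
    rw [hξ, hη]
    linarith [h6]
  rw [h5] at h4
  have h6 : -(((1 - r) * α + r * β) * z) ≤ 2 * a * |z| := by
    have h7 : 0 ≤ (1 - r) * α + r * β := add_nonneg (mul_nonneg hr1.le hα0) (mul_nonneg hr0.le hβ0)
    have h8 : (1 - r) * α + r * β ≤ 2 * a := by nlinarith
    have h9 : -z ≤ |z| := neg_le_abs z
    calc -(((1 - r) * α + r * β) * z) = ((1 - r) * α + r * β) * -z := by ring
      _ ≤ ((1 - r) * α + r * β) * |z| := mul_le_mul_of_nonneg_left h9 h7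
      _ ≤ 2 * a * |z| := mul_le_mul_of_nonneg_right h8 (abs_nonneg z)
  have h7 : 2 * a * |z| ≤ cm r * (3 * a * |z|) := by
    have h8 : 0 ≤ a * |z| := mul_nonneg ha0 (abs_nonneg z)
    nlinarith
  nlinarith

/-- A transversal whose direction lies in the closed cone has its direction in the open cone. -/
theorem strict (hn : 2 ≤ n) (hM : 2 * n ≤ M + 1) {j k i : ℕ} (hj : j < n) (hk : k < n)
    (hi : i + 1 < n) {L : Line3} (hL : L ∈ transversalSpace (tfam n M)) {v : E3}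
    (hv : v ∈ L.1.direction) (hv0 : v ≠ 0) (hvc : v ∈ coneCl n (j, k, i)) :
    v ∈ coneOp n (j, k, i) := by
  rw [mem_coneCl] at hvc
  obtain ⟨h2, hA, hB, hC, hD⟩ := hvc
  simp only at hA hB hC hD
  have hv2 : 0 < v 2 := by
    rcases h2.lt_or_eq with h | h
    · exact h
    · exfalso
      rw [← h] at hA hB hC hD
      simp only [mul_zero] at hA hB hC hD
      apply hv0
      apply ext3
      · simp; linarith
      · simp; linarith
      · simp [← h]
  obtain ⟨p, q, hpq⟩ := line_coords L hv hv2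
  -- slopes
  set α := v 0 / v 2 with hα
  set β := v 1 / v 2 with hβ
  have eα : v 0 = α * v 2 := by rw [hα]; field_simp
  have eβ : v 1 = β * v 2 := by rw [hβ]; field_simp
  set s := α - 2 * j with hs
  set t := β - 2 * k with ht
  set a := ca n with ha
  set δ := cδ n with hδ
  set ε : ℝ := 1 / (16 * a ^ 3) with hε
  have ha3 : 3 ≤ a := ca_ge hn
  have ha0 : 0 < a := by linarith
  have hδ0 : 0 < δ := cδ_pos
  have hA' : cr n i ≤ s := by
    rw [eα] at hA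
    have := le_of_mul_le_mul_right hA hv2
    rw [hs]; linarith
  have hB' : s ≤ cr n (i + 1) := by
    rw [eα] at hB
    have := le_of_mul_le_mul_right hB hv2
    rw [hs]; linarith
  have hC' : 0 ≤ t := by
    rw [eβ] at hC
    have := le_of_mul_le_mul_right hC hv2
    rw [ht]; linarith
  have hD' : s + t ≤ 1 - δ := by
    rw [eα, eβ, ← add_mul] at hD
    have := le_of_mul_le_mul_right hD hv2
    rw [hs, ht]; linarith
  have hs0 : 0 < s := (cr_pos i).trans_le hA'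
  have hs1 : s ≤ 1 := by linarith
  have ht1 : t ≤ 1 := by linarith
  -- constraint from the first portion
  have cA : -(s ^ 2) ≤ p := by
    obtain ⟨x, hxL, hx⟩ := hL (Sum.inl (Sum.inl ⟨j, hj⟩))
    have hx' : (x 2 - -(4 * (j : ℝ))) ^ 2 / 4 ≤ x 0 - -(4 * (j : ℝ) ^ 2) := hx.1
    have := (hpq x hxL).1
    rw [this] at hx'
    have h := sq_nonneg (x 2 / 2 - s)
    rw [hs] at h ⊢
    nlinarith
  have cB : -(t ^ 2) ≤ q := by
    obtain ⟨x, hxL, hx⟩ := hL (Sum.inl (Sum.inr ⟨k, hk⟩))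
    have hx' : (x 2 - -(4 * (k : ℝ))) ^ 2 / 4 ≤ x 1 - -(4 * (k : ℝ) ^ 2) := hx.2.1
    have := (hpq x hxL).2
    rw [this] at hx'
    have h := sq_nonneg (x 2 / 2 - t)
    rw [ht] at h ⊢
    nlinarith
  have hαb : 0 ≤ α ∧ α ≤ 2 * a := by
    have hjn : (j : ℝ) + 1 ≤ n := by exact_mod_cast hj
    have hj0 : (0 : ℝ) ≤ j := by positivity
    constructor
    · rw [hs] at hs0; linarith
    · rw [hs] at hs1; rw [ha]; unfold ca; linarith
  have hβb : 0 ≤ β ∧ β ≤ 2 * a := by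
    have hkn : (k : ℝ) + 1 ≤ n := by exact_mod_cast hk
    have hk0 : (0 : ℝ) ≤ k := by positivity
    constructor
    · rw [ht] at hC'; linarith
    · rw [ht] at ht1; rw [ha]; unfold ca; linarith
  -- constraint from the double cones
  have cF : ∀ l : ℕ, l < n → (1 - cr n l) * p + cr n l * q + cr n l * (1 - cr n l) ≤ 0 := by
    intro l hl
    obtain ⟨x, hxL, hx⟩ := hL (Sum.inr (Sum.inl ⟨l, hl⟩))
    obtain ⟨e0, e1⟩ := hpq x hxL
    have hr0 := cr_pos (n := n) l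
    have hr2 : 0 < 1 - cr n l := by linarith [cr_lt_one (n := n) hl]
    have hx4 : 3 * a * |x 2 - 0| ≤ 6 * cl n := hx.2.2.2.1
    have hx5 : (x 0 - (-(cr n l) ^ 2 - 6 * cl n * ((1 - cr n l) / cm (cr n l)) - 2 * cl n) -
        2 * cl n) ^ 2 + (x 1 - (-(1 - cr n l) ^ 2 - 6 * cl n * (cr n l / cm (cr n l)) -
        2 * cl n) - 2 * cl n) ^ 2 ≤ (6 * cl n - 3 * a * |x 2 - 0|) ^ 2 := hx.2.2.2.2
    rw [sub_zero] at hx4 hx5
    rw [e0, e1] at hx5
    refine cone_nec hr0 hr2 hαb.1 hαb.2 hβb.1 hβb.2 hx4 (le_trans (le_of_eq ?_) hx5)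
    ring
  have hgap : ∀ l : ℕ, 1 / a ≤ cr n l := by
    intro l
    unfold cr
    apply div_le_div_of_nonneg_right _ ha0.le
    have : (0 : ℝ) ≤ l := by positivity
    linarith
  have cF' : ∀ l : ℕ, l < n → 1 - ε ≤ s ^ 2 / cr n l + t ^ 2 / (1 - cr n l) := by
    intro l hl
    have h := cF l hl
    have hr0 := cr_pos (n := n) l
    have hr2 : 0 < 1 - cr n l := by linarith [cr_lt_one (n := n) hl]
    have hε0 : 0 < ε := by rw [hε]; positivity
    have h1 : 1 ≤ s ^ 2 / cr n l + t ^ 2 / (1 - cr n l) := by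
      rw [div_add_div _ _ hr0.ne' hr2.ne', le_div_iff₀ (mul_pos hr0 hr2)]
      have h2 := mul_le_mul_of_nonneg_left cA hr2.le
      have h3 := mul_le_mul_of_nonneg_left cB hr0.le
      linarith
    linarith
  have hin : i < n := by omega
  -- strictness at the two ends
  have sA : cr n i < s := by
    rcases hA'.lt_or_eq with h | h
    · exact h
    · exfalso
      have := cF' i hin
      rw [← h] at this hD'
      exact tangent_gap ha3 hδ rfl (cr_pos i) (cr_gap hin) hC' hD' this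
  have sB : s < cr n (i + 1) := by
    rcases hB'.lt_or_eq with h | h
    · exact h
    · exfalso
      have := cF' (i + 1) hi
      rw [h] at this hD'
      exact tangent_gap ha3 hδ rfl (cr_pos (i + 1)) (cr_gap hi) hC' hD' this
  have sC : 0 < t := by
    rcases hC'.lt_or_eq with h | h
    · exact h
    · exfalso
      have := cF' (i + 1) hi
      rw [← h] at this
      simp only [ne_eq, OfNat.ofNat_ne_zero, not_false_eq_true, zero_pow, zero_div,
        add_zero] at this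
      exact edge_gap ha3 rfl (cr_pos (i + 1)) (cr_gap hi) hs0.le hB' this
  have sD : s + t < 1 - δ := by
    rcases hD'.lt_or_eq with h | h
    · exact h
    · exfalso
      have hm : j + k < M := by omega
      obtain ⟨x, hxL, hx⟩ := hL (Sum.inr (Sum.inr ⟨j + k, hm⟩))
      obtain ⟨e0, e1⟩ := hpq x hxL
      have hM0 := cM_pos (n := n)
      have hsum : α + β = 2 * ((j + k : ℕ) : ℝ) + 1 - δ := by
        rw [hs, ht] at h; push_cast; linarith
      have hx3 : cl n + (x 2 - -(2 * cM n * (2 * ((j + k : ℕ) : ℝ) + 1 - δ))) ^ 2 /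
          (4 * cM n) ≤ (x 0 - -((cl n + cM n * (2 * ((j + k : ℕ) : ℝ) + 1 - δ) ^ 2) / 2)) +
          (x 1 - -((cl n + cM n * (2 * ((j + k : ℕ) : ℝ) + 1 - δ) ^ 2) / 2)) := hx.2.2.1
      rw [← hsum, e0, e1] at hx3
      have h1 : (x 2 - -(2 * cM n * (α + β))) ^ 2 / (4 * cM n) =
          (x 2) ^ 2 / (4 * cM n) + (α + β) * x 2 + cM n * (α + β) ^ 2 := by
        field_simp; ring
      rw [h1] at hx3
      have h2 : 0 ≤ (x 2) ^ 2 / (4 * cM n) := by positivity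
      have h3 : 0 ≤ p + q := by linarith
      have h4 := cF 0 (by omega)
      have h5 := cF (n - 1) (by omega)
      have h6 : cr n (n - 1) = 1 - cr n 0 := by
        have hc : ((n - 1 : ℕ) : ℝ) = (n : ℝ) - 1 := by
          rw [Nat.cast_sub (by omega)]; simp
        have ha' : ca n = (n : ℝ) + 1 := rfl
        have : ca n ≠ 0 := ca_pos.ne'
        unfold cr
        rw [hc]
        field_simp
        rw [ha']
        push_cast
        ring
      rw [h6] at h5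
      have h7 : 0 < cr n 0 * (1 - cr n 0) :=
        mul_pos (cr_pos 0) (by linarith [cr_lt_one (n := n) (l := 0) (by omega)])
      linarith
  -- conclude
  rw [mem_coneOp]
  simp only
  refine ⟨hv2, ?_, ?_, ?_, ?_⟩
  · rw [eα]; apply mul_lt_mul_of_pos_right _ hv2; rw [hs] at sA; linarith
  · rw [eα]; apply mul_lt_mul_of_pos_right _ hv2; rw [hs] at sB; linarith
  · rw [eβ]; apply mul_lt_mul_of_pos_right _ hv2; rw [ht] at sC; linarith
  · rw [eα, eβ, ← add_mul]; apply mul_lt_mul_of_pos_right _ hv2; rw [hs, ht] at sD; linarith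

end Pool.Agent.H44.TT
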